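import Pool.Agent.N658.TP.Stm4
import Pool.Agent.N658.TP.AsmA2
import Pool.Agent.N441.TP.TrM
import Pool.Agent.N134.TP.Ref
import Pool.Agent.N692.TP.Pb
import Pool.Agent.N163.TP.Therm

/-! # TP/FreeDown: the bound on the free energy for one size gives it for divisors -/

set_option linter.unusedSectionVars false

open scoped BigOperators ComplexConjugate Matrix
open scoped Matrix.Norms.L2Operator

noncomputable section

namespace Pool.Agent.N8.TP.FreeDown

open Pool.Agent.Y738.PE Pool.Agent.N658.TP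

/-! ## Quadratic forms -/

section qfl

variable {n : Type} [Fintype n]

lemma qf_add (A B : Matrix n n ℂ) (v : n → ℂ) : qf (A + B) v = qf A v + qf B v := by
  unfold qf Pool.Agent.TH235.PP.ip
  rw [← Complex.add_re, ← Finset.sum_add_distrib]
  congr 1
  refine Finset.sum_congr rfl fun s _ => ?_
  rw [Matrix.add_mulVec, Pi.add_apply, mul_add]

lemma qf_zero (v : n → ℂ) : qf (0 : Matrix n n ℂ) v = 0 := by
  unfold qf Pool.Agent.TH235.PP.ip
  simp

lemma qf_sum {ι : Type} (s : Finset ι) (A : ι → Matrix n n ℂ) (v : n → ℂ) :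
    qf (∑ i ∈ s, A i) v = ∑ i ∈ s, qf (A i) v := by
  classical
  induction s using Finset.induction_on with
  | empty => simp [qf_zero]
  | insert a s ha ih => rw [Finset.sum_insert ha, Finset.sum_insert ha, qf_add, ih]

lemma qf_smul (A : Matrix n n ℂ) (c : ℝ) (v : n → ℂ) : qf ((c : ℂ) • A) v = c * qf A v := by
  unfold qf Pool.Agent.TH235.PP.ip
  rw [← Complex.re_ofReal_mul, Finset.mul_sum]
  congr 1
  refine Finset.sum_congr rfl fun s _ => ?_
  rw [Matrix.smul_mulVec, Pi.smul_apply, smul_eq_mul]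
  ring

lemma abs_qf_le [DecidableEq n] (A : Matrix n n ℂ) (v : n → ℂ) : |qf A v| ≤ ‖A‖ * nsq v := by
  unfold qf
  refine (Complex.abs_re_le_norm _).trans ?_
  rw [Pool.Agent.TH235.PP.ip_eq]
  refine (norm_inner_le_norm _ _).trans ?_
  have h1 := Pool.Agent.TH235.PP.nr_mulVec A v
  have h2 := Pool.Agent.TH235.PP.nr_nonneg v
  have h3 := Pool.Agent.TH235.PP.nr_sq v
  change Pool.Agent.TH235.PP.nr v * Pool.Agent.TH235.PP.nr (A *ᵥ v) ≤ _
  rw [show nsq v = Pool.Agent.TH235.PP.normSq v from rfl, ← h3]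
  nlinarith

end qfl

/-! ## The copies of an operator on the tiles -/

section core

variable {S T β : Type} [Fintype S] [DecidableEq S] [Fintype T] [DecidableEq T] [Fintype β]
  [DecidableEq β] (e : S ≃ (T → β))

open Classical in
/-- the copy of `A` on the tile `t` -/
def cpy (t : T) (A : Matrix β β ℂ) : Matrix S S ℂ :=
  Matrix.of fun σ σ' => if ∀ t', t' ≠ t → e σ t' = e σ' t' then A (e σ t) (e σ' t) else 0

lemma cpy_sum {ι : Type} (s : Finset ι) (t : T) (A : ι → Matrix β β ℂ) :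
    cpy e t (∑ i ∈ s, A i) = ∑ i ∈ s, cpy e t (A i) := by
  ext σ σ'
  rw [Matrix.sum_apply]
  unfold cpy
  simp only [Matrix.of_apply]
  split_ifs
  · rw [Matrix.sum_apply]
  · rw [Finset.sum_const_zero]

lemma cpy_smul (c : ℂ) (t : T) (A : Matrix β β ℂ) : cpy e t (c • A) = c • cpy e t A := by
  ext σ σ'
  rw [Matrix.smul_apply]
  unfold cpy
  simp only [Matrix.of_apply, Matrix.smul_apply, smul_eq_mul]
  split_ifs <;> simp

/-- `S` as the configurations on the tile `t` and those on the others -/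
def spl (t : T) : S ≃ β × ({t' : T // t' ≠ t} → β) := e.trans (Equiv.piSplitAt t (fun _ => β))

lemma cpy_spl (t : T) (A : Matrix β β ℂ) (p q : β × ({t' : T // t' ≠ t} → β)) :
    cpy e t A ((spl e t).symm p) ((spl e t).symm q) = if p.2 = q.2 then A p.1 q.1 else 0 := by
  obtain ⟨σ, rfl⟩ := (spl e t).surjective p
  obtain ⟨σ', rfl⟩ := (spl e t).surjective q
  rw [Equiv.symm_apply_apply, Equiv.symm_apply_apply]
  have h1 : ∀ σ : S, (spl e t σ).1 = e σ t := fun σ => rfl
  have h2 : ∀ (σ : S) (t' : {t' : T // t' ≠ t}), (spl e t σ).2 t' = e σ t' := fun σ t' => rfl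
  have h3 : (∀ t', t' ≠ t → e σ t' = e σ' t') ↔ (spl e t σ).2 = (spl e t σ').2 := by
    constructor
    · intro h
      funext t'
      rw [h2, h2]
      exact h t' t'.2
    · intro h t' ht'
      have := congrFun h ⟨t', ht'⟩
      rw [h2, h2] at this
      exact this
  unfold cpy
  rw [Matrix.of_apply, h1, h1]
  by_cases h : ∀ t', t' ≠ t → e σ t' = e σ' t'
  · rw [if_pos h, if_pos (h3.1 h)]
  · rw [if_neg h, if_neg (fun hh => h (h3.2 hh))]

lemma qf_cpy (t : T) (A : Matrix β β ℂ) (φ : S → ℂ) :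
    qf (cpy e t A) φ = ∑ r : {t' : T // t' ≠ t} → β, qf A (fun x => φ ((spl e t).symm (x, r))) := by
  unfold qf Pool.Agent.TH235.PP.ip Matrix.mulVec dotProduct
  rw [← Complex.re_sum]
  congr 1
  rw [← (spl e t).symm.sum_comp, Fintype.sum_prod_type_right]
  refine Finset.sum_congr rfl fun r _ => Finset.sum_congr rfl fun x _ => ?_
  congr 1
  rw [← (spl e t).symm.sum_comp, Fintype.sum_prod_type_right, Finset.sum_eq_single r]
  · refine Finset.sum_congr rfl fun y _ => ?_
    have h := cpy_spl e t A (x, r) (y, r)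
    rw [if_pos rfl] at h
    exact congrArg (fun z => z * φ ((spl e t).symm (y, r))) h
  · intro r' _ hr'
    refine Finset.sum_eq_zero fun y _ => ?_
    have h := cpy_spl e t A (x, r) (y, r')
    rw [if_neg (fun h => hr' h.symm)] at h
    exact (congrArg (fun z => z * φ ((spl e t).symm (y, r'))) h).trans (zero_mul _)
  · intro h
    exact absurd (Finset.mem_univ _) h

lemma nsq_spl (t : T) (φ : S → ℂ) :
    nsq φ = ∑ r : {t' : T // t' ≠ t} → β, nsq (fun x => φ ((spl e t).symm (x, r))) := by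
  unfold nsq Pool.Agent.TH235.PP.normSq
  rw [← (spl e t).symm.sum_comp, Fintype.sum_prod_type_right]

lemma abs_qf_cpy (t : T) (A : Matrix β β ℂ) (φ : S → ℂ) :
    |qf (cpy e t A) φ| ≤ ‖A‖ * nsq φ := by
  rw [qf_cpy, nsq_spl e t, Finset.mul_sum]
  refine (Finset.abs_sum_le_sum_abs _ _).trans (Finset.sum_le_sum fun r _ => abs_qf_le _ _)

lemma sum_prodR (F : T → β → ℝ) : ∑ σ : S, ∏ t, F t (e σ t) = ∏ t, ∑ x, F t x := by
  rw [e.sum_comp (fun s => ∏ t, F t (s t)), Finset.prod_univ_sum, Fintype.piFinset_univ]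

/-- Peierls' inequality for the products of eigenvectors. -/
theorem peierls (X : Matrix β β ℂ) (Y : Matrix S S ℂ) (hX : X.IsHermitian) (hY : Y.IsHermitian)
    (c : ℝ) (h : ∀ φ : S → ℂ, nsq φ = 1 → (∑ t, qf (cpy e t X) φ) - c ≤ qf Y φ) :
    Real.exp (-c) * (NormedSpace.exp X).trace.re ^ Fintype.card T ≤
      (NormedSpace.exp Y).trace.re := by
  obtain ⟨U, x, h1, h2, h3, h4⟩ := Pool.Agent.N441.TP.spec_exp X hX
  have hV := Pool.Agent.N134.TP.Ref.VV_unit e U h2
  obtain ⟨V, hVd⟩ : ∃ V, V = Pool.Agent.N134.TP.Ref.VV e U := ⟨_, rfl⟩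
  rw [← hVd] at hV
  have hV' : Vᴴ * V = 1 := mul_eq_one_comm.1 hV
  -- the trace of `exp X`
  have hZ : (NormedSpace.exp X).trace.re = ∑ b, Real.exp (x b) := by
    have e1 : (NormedSpace.exp X).trace = (Uᴴ * NormedSpace.exp X * U).trace := by
      rw [mul_assoc, Matrix.trace_mul_comm, mul_assoc, h2, mul_one]
    rw [e1, h4, Matrix.trace_diagonal, Complex.re_sum]
    rfl
  -- the sum of the copies
  have hXL : Pool.Agent.N134.TP.Ref.Lm U x = X := by
    have e1 : X = U * (Uᴴ * X * U) * Uᴴ := by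
      calc X = (U * Uᴴ) * X * (U * Uᴴ) := by rw [h2, one_mul, mul_one]
        _ = _ := by simp only [mul_assoc]
    rw [h3] at e1
    rw [e1]
    ext a b
    unfold Pool.Agent.N134.TP.Ref.Lm
    rw [Matrix.of_apply, Matrix.mul_apply]
    refine Finset.sum_congr rfl fun z _ => ?_
    rw [Matrix.mul_diagonal, Matrix.conjTranspose_apply]
    rfl
  have hG : Pool.Agent.N134.TP.Ref.GG e U x = ∑ t, cpy e t X := by
    ext σ σ'
    rw [Pool.Agent.N134.TP.Ref.GG_apply e U h2, Matrix.sum_apply, hXL]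
    refine Finset.sum_congr rfl fun t _ => ?_
    unfold cpy
    rw [Matrix.of_apply]
  have hcol : ∀ σ : S, (∑ t, qf (cpy e t X) (fun s => V s σ)) = ∑ t, x (e σ t) := by
    intro σ
    rw [← qf_sum, ← hG, Pool.Agent.N441.TP.qf_col]
    unfold Pool.Agent.N134.TP.Ref.GG
    rw [← hVd]
    have e1 : Vᴴ * (V * Matrix.diagonal (fun σ' => ((∑ t, x (e σ' t) : ℝ) : ℂ)) * Vᴴ) * V =
        Matrix.diagonal (fun σ' => ((∑ t, x (e σ' t) : ℝ) : ℂ)) := by
      calc Vᴴ * (V * Matrix.diagonal (fun σ' => ((∑ t, x (e σ' t) : ℝ) : ℂ)) * Vᴴ) * V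
          = (Vᴴ * V) * Matrix.diagonal (fun σ' => ((∑ t, x (e σ' t) : ℝ) : ℂ)) * (Vᴴ * V) := by
            simp only [mul_assoc]
        _ = _ := by rw [hV', one_mul, mul_one]
    rw [e1, Matrix.diagonal_apply_eq, Complex.ofReal_re]
  rw [Pool.Agent.N441.TP.trace_col V _ hV]
  have hterm : ∀ σ : S, Real.exp (-c) * ∏ t, Real.exp (x (e σ t)) ≤
      qf (NormedSpace.exp Y) (fun s => V s σ) := by
    intro σ
    have e1 := (Pool.Agent.N692.TP.pbMain S Y hY (fun s => V s σ)
      (Pool.Agent.N441.TP.nsq_col V hV' σ)).1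
    refine le_trans ?_ e1
    rw [← Real.exp_sum, ← Real.exp_add]
    refine Real.exp_le_exp.2 ?_
    have e2 := h (fun s => V s σ) (Pool.Agent.N441.TP.nsq_col V hV' σ)
    rw [hcol] at e2
    linarith
  refine le_trans (le_of_eq ?_) (Finset.sum_le_sum fun σ _ => hterm σ)
  rw [← Finset.mul_sum, sum_prodR e (fun _ b => Real.exp (x b)), hZ, Finset.prod_const,
    Finset.card_univ]

end core

/-! ## The tiles -/

section tiles

variable {m j : ℕ} [NeZero m] [NeZero (m * j)]

/-- a coordinate of the large torus as a tile and a coordinate of the small torus -/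
def zE (m j : ℕ) [NeZero m] [NeZero (m * j)] : ZMod (m * j) ≃ Fin j × ZMod m where
  toFun x := (⟨x.val / m, Nat.div_lt_of_lt_mul (ZMod.val_lt x)⟩, ((x.val : ℕ) : ZMod m))
  invFun p := ((m * (p.1 : ℕ) + p.2.val : ℕ) : ZMod (m * j))
  left_inv x := by
    show ((m * (x.val / m) + (((x.val : ℕ) : ZMod m)).val : ℕ) : ZMod (m * j)) = x
    rw [ZMod.val_natCast, Nat.div_add_mod, ZMod.natCast_zmod_val]
  right_inv p := by
    have hm : 0 < m := Nat.pos_of_ne_zero (NeZero.ne m)
    have h2 : p.2.val < m := ZMod.val_lt p.2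
    have h1 : m * (p.1 : ℕ) + p.2.val < m * j := by
      calc m * (p.1 : ℕ) + p.2.val < m * (p.1 : ℕ) + m := by omega
        _ = m * ((p.1 : ℕ) + 1) := by ring
        _ ≤ m * j := Nat.mul_le_mul_left m p.1.2
    have h3 : (((m * (p.1 : ℕ) + p.2.val : ℕ) : ZMod (m * j))).val = m * (p.1 : ℕ) + p.2.val :=
      ZMod.val_cast_of_lt h1
    refine Prod.ext (Fin.ext ?_) ?_
    · show (((m * (p.1 : ℕ) + p.2.val : ℕ) : ZMod (m * j))).val / m = p.1
      rw [h3, Nat.mul_add_div hm, Nat.div_eq_of_lt h2, add_zero]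
    · show (((((m * (p.1 : ℕ) + p.2.val : ℕ) : ZMod (m * j))).val : ℕ) : ZMod m) = p.2
      rw [h3, Nat.cast_add, Nat.cast_mul, ZMod.natCast_self, zero_mul, zero_add,
        ZMod.natCast_zmod_val]

lemma zE_symm_add (t : Fin j) (v : ZMod m) (k : ℕ) (h : v.val + k < m) :
    (zE m j).symm (t, v + (k : ZMod m)) = (zE m j).symm (t, v) + (k : ZMod (m * j)) := by
  show ((m * (t : ℕ) + (v + (k : ZMod m)).val : ℕ) : ZMod (m * j)) =
    ((m * (t : ℕ) + v.val : ℕ) : ZMod (m * j)) + (k : ZMod (m * j))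
  have h1 : (v + (k : ZMod m)).val = v.val + k := by
    have : v + (k : ZMod m) = ((v.val + k : ℕ) : ZMod m) := by
      rw [Nat.cast_add, ZMod.natCast_zmod_val]
    rw [this]
    exact ZMod.val_cast_of_lt h
  rw [h1]
  push_cast
  ring

/-- a site of the large torus as a tile and a site of the small torus -/
def sE (m j : ℕ) [NeZero m] [NeZero (m * j)] : Site (m * j) ≃ (Fin j × Fin j) × Site m :=
  ((zE m j).prodCongr (zE m j)).trans (Equiv.prodProdProdComm _ _ _ _)

lemma sE_symm (t : Fin j × Fin j) (v : Site m) :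
    (sE m j).symm (t, v) = ((zE m j).symm (t.1, v.1), (zE m j).symm (t.2, v.2)) := rfl

/-- a configuration on the large torus as a family of configurations on the small one -/
def cE (d m j : ℕ) [NeZero m] [NeZero (m * j)] :
    Conf d (m * j) ≃ (Fin j × Fin j → Conf d m) where
  toFun s := fun t v => s ((sE m j).symm (t, v))
  invFun f := fun w => f ((sE m j) w).1 ((sE m j) w).2
  left_inv s := by
    funext w
    show s ((sE m j).symm (((sE m j) w).1, ((sE m j) w).2)) = s w
    rw [Prod.mk.eta, Equiv.symm_apply_apply]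
  right_inv f := by
    funext t v
    show f ((sE m j) ((sE m j).symm (t, v))).1 ((sE m j) ((sE m j).symm (t, v))).2 = f t v
    rw [Equiv.apply_symm_apply]

open Pool.Agent.TH235.PP (BoxOp TorOp term sh nJ nJ_nonneg norm_term) in
lemma term_inner {d R' : ℕ} (h : BoxOp d (R' + 1)) (t : Fin j × Fin j) (v : Site m)
    (h1 : v.1.val + R' < m) (h2 : v.2.val + R' < m) :
    term h ((sE m j).symm (t, v)) = cpy (cE d m j) t (term h v : TorOp d m) := by
  have hsh : ∀ x : Fin (R' + 1) × Fin (R' + 1),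
      sh ((sE m j).symm (t, v)) x = (sE m j).symm (t, sh v x) := by
    intro x
    have e1 := x.1.2
    have e2 := x.2.2
    rw [sE_symm, sE_symm]
    refine Prod.ext ?_ ?_
    · exact (zE_symm_add t.1 v.1 x.1 (by omega)).symm
    · exact (zE_symm_add t.2 v.2 x.2 (by omega)).symm
  ext s s'
  unfold cpy
  rw [Matrix.of_apply]
  unfold term
  have hiff : (∀ w, (∀ x : Fin (R' + 1) × Fin (R' + 1), sh ((sE m j).symm (t, v)) x ≠ w) →
      s w = s' w) ↔ ((∀ t', t' ≠ t → cE d m j s t' = cE d m j s' t') ∧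
      ∀ w, (∀ x : Fin (R' + 1) × Fin (R' + 1), sh v x ≠ w) →
        cE d m j s t w = cE d m j s' t w) := by
    constructor
    · intro hw
      refine ⟨?_, ?_⟩
      · intro t' ht'
        funext w
        refine hw ((sE m j).symm (t', w)) ?_
        intro x hx
        rw [hsh] at hx
        exact ht' (congrArg Prod.fst ((sE m j).symm.injective hx)).symm
      · intro w hw'
        refine hw ((sE m j).symm (t, w)) ?_
        intro x hx
        rw [hsh] at hx
        exact hw' x (congrArg Prod.snd ((sE m j).symm.injective hx))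
    · rintro ⟨hA, hB⟩ w hw
      obtain ⟨⟨t', w'⟩, rfl⟩ := (sE m j).symm.surjective w
      by_cases ht' : t' = t
      · subst ht'
        refine hB w' ?_
        intro x hx
        refine hw x ?_
        rw [hsh, hx]
      · exact congrFun (hA t' ht') w'
  by_cases hc : ∀ w, (∀ x : Fin (R' + 1) × Fin (R' + 1), sh ((sE m j).symm (t, v)) x ≠ w) →
      s w = s' w
  · have hc' := hiff.1 hc
    rw [if_pos hc, if_pos hc'.1, if_pos hc'.2]
    have e1 : ∀ s : Conf d (m * j), (fun x : Fin (R' + 1) × Fin (R' + 1) =>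
        s (sh ((sE m j).symm (t, v)) x)) = fun x => cE d m j s t (sh v x) := by
      intro s
      funext x
      rw [hsh]
      rfl
    rw [e1, e1]
  · rw [if_neg hc]
    split_ifs with hA hB
    · exact absurd (hiff.2 ⟨hA, hB⟩) hc
    · rfl
    · rfl

/-- the positions whose box leaves the tile -/
def bad (m R' : ℕ) [NeZero m] : Finset (Site m) :=
  Finset.univ.filter fun v => ¬ (v.1.val + R' < m ∧ v.2.val + R' < m)

lemma card_bad (m R' : ℕ) [NeZero m] : (bad m R').card ≤ 2 * R' * m := by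
  classical
  have h1 : (Finset.univ.filter fun a : ZMod m => ¬ a.val + R' < m).card ≤ R' := by
    calc (Finset.univ.filter fun a : ZMod m => ¬ a.val + R' < m).card
        ≤ (Finset.range R').card := by
          refine Finset.card_le_card_of_injOn (fun a => m - 1 - a.val) ?_ ?_
          · intro a ha
            have ha' := (Finset.mem_filter.1 ha).2
            have h2 := ZMod.val_lt a
            rw [Finset.mem_coe, Finset.mem_range]
            show m - 1 - a.val < R'
            omega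
          · intro a _ b _ hab
            have h2 := ZMod.val_lt a
            have h3 := ZMod.val_lt b
            have h4 : m - 1 - a.val = m - 1 - b.val := hab
            exact ZMod.val_injective m (by omega)
      _ = R' := Finset.card_range R'
  have h2 : bad m R' ⊆
      ((Finset.univ.filter fun a : ZMod m => ¬ a.val + R' < m) ×ˢ (Finset.univ : Finset (ZMod m))) ∪
      ((Finset.univ : Finset (ZMod m)) ×ˢ (Finset.univ.filter fun a : ZMod m => ¬ a.val + R' < m)) := by
    intro v hv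
    have hv' := (Finset.mem_filter.1 hv).2
    rw [Finset.mem_union, Finset.mem_product, Finset.mem_product, Finset.mem_filter,
      Finset.mem_filter]
    by_cases h3 : v.1.val + R' < m
    · right
      exact ⟨Finset.mem_univ _, Finset.mem_univ _, fun h4 => hv' ⟨h3, h4⟩⟩
    · left
      exact ⟨⟨Finset.mem_univ _, h3⟩, Finset.mem_univ _⟩
  refine (Finset.card_le_card h2).trans ((Finset.card_union_le _ _).trans ?_)
  rw [Finset.card_product, Finset.card_product, Finset.card_univ, ZMod.card]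
  nlinarith

open Pool.Agent.TH235.PP (BoxOp TorOp term sh nJ nJ_nonneg norm_term) in
/-- the Hamiltonian of the large torus and those of the tiles -/
lemma ham_cmp {d R' : ℕ} (h : BoxOp d (R' + 1)) (φ : Conf d (m * j) → ℂ) (hφ : nsq φ = 1) :
    |qf (Pool.Agent.TH235.PP.ham h (m * j)) φ - ∑ t, qf (cpy (cE d m j) t (Pool.Agent.TH235.PP.ham h m : TorOp d m)) φ| ≤
      4 * R' * nJ h * ((j : ℝ) ^ 2 * m) := by
  have e1 : qf (Pool.Agent.TH235.PP.ham h (m * j)) φ = ∑ t : Fin j × Fin j, ∑ v : Site m,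
      qf (term h ((sE m j).symm (t, v))) φ := by
    unfold Pool.Agent.TH235.PP.ham
    rw [qf_sum, ← (sE m j).symm.sum_comp, Fintype.sum_prod_type]
  have e2 : ∀ t : Fin j × Fin j, qf (cpy (cE d m j) t (Pool.Agent.TH235.PP.ham h m : TorOp d m)) φ =
      ∑ v : Site m, qf (cpy (cE d m j) t (term h v : TorOp d m)) φ := by
    intro t
    unfold Pool.Agent.TH235.PP.ham
    rw [cpy_sum, qf_sum]
  simp only [e2]
  rw [e1, ← Finset.sum_sub_distrib]
  have hJ := nJ_nonneg h
  have h3 : ∀ t : Fin j × Fin j, |(∑ v : Site m, qf (term h ((sE m j).symm (t, v))) φ) -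
      ∑ v : Site m, qf (cpy (cE d m j) t (term h v : TorOp d m)) φ| ≤ 4 * R' * nJ h * m := by
    intro t
    rw [← Finset.sum_sub_distrib]
    have h4 : ∑ v : Site m, (qf (term h ((sE m j).symm (t, v))) φ -
        qf (cpy (cE d m j) t (term h v : TorOp d m)) φ) = ∑ v ∈ bad m R',
        (qf (term h ((sE m j).symm (t, v))) φ -
        qf (cpy (cE d m j) t (term h v : TorOp d m)) φ) := by
      symm
      refine Finset.sum_subset (Finset.subset_univ _) ?_
      intro v _ hv
      have hv' : v.1.val + R' < m ∧ v.2.val + R' < m := by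
        by_contra hcon
        exact hv (Finset.mem_filter.2 ⟨Finset.mem_univ _, hcon⟩)
      rw [term_inner h t v hv'.1 hv'.2, sub_self]
    rw [h4]
    refine (Finset.abs_sum_le_sum_abs _ _).trans ?_
    have h5 : ∀ v ∈ bad m R', |qf (term h ((sE m j).symm (t, v))) φ -
        qf (cpy (cE d m j) t (term h v : TorOp d m)) φ| ≤ 2 * nJ h := by
      intro v _
      have h6 : |qf (term h ((sE m j).symm (t, v))) φ| ≤ nJ h := by
        have h7 := abs_qf_le (term h ((sE m j).symm (t, v))) φ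
        rw [hφ, mul_one] at h7
        exact h7.trans (norm_term h _)
      have h8 : |qf (cpy (cE d m j) t (term h v : TorOp d m)) φ| ≤ nJ h := by
        have h7 := abs_qf_cpy (cE d m j) t (term h v : TorOp d m) φ
        rw [hφ, mul_one] at h7
        exact h7.trans (norm_term h _)
      have h9 := abs_sub (qf (term h ((sE m j).symm (t, v))) φ)
        (qf (cpy (cE d m j) t (term h v : TorOp d m)) φ)
      linarith
    refine (Finset.sum_le_sum h5).trans ?_
    rw [Finset.sum_const, nsmul_eq_mul]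
    have h10 : ((bad m R').card : ℝ) ≤ 2 * R' * m := by
      exact_mod_cast card_bad m R'
    have h11 := mul_le_mul_of_nonneg_right h10 (show (0 : ℝ) ≤ 2 * nJ h by linarith)
    refine h11.trans (le_of_eq (by ring))
  refine (Finset.abs_sum_le_sum_abs _ _).trans ((Finset.sum_le_sum fun t _ => h3 t).trans ?_)
  rw [Finset.sum_const, nsmul_eq_mul, Finset.card_univ, Fintype.card_prod, Fintype.card_fin]
  refine le_of_eq ?_
  push_cast
  ring

end tiles

/-! ## Assembly -/

lemma en_eq {d q m : ℕ} [NeZero m] (h : BConf d q → BConf d q → ℂ) (φ : Conf d m → ℂ) :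
    en h m φ = (enS φ h).re := by
  unfold en enS expec ham
  congr 1
  rw [Finset.sum_comm]
  refine Finset.sum_congr rfl fun s _ => ?_
  rw [Finset.mul_sum]
  refine Finset.sum_congr rfl fun u _ => ?_
  rw [Finset.mul_sum]
  refine Finset.sum_congr rfl fun τ _ => ?_
  ring

lemma trace_exp {n : Type} [Fintype n] [DecidableEq n] [Nonempty n] (X : Matrix n n ℂ)
    (hX : X.IsHermitian) : 0 < (NormedSpace.exp X).trace.re := by
  obtain ⟨U, x, h1, h2, h3, h4⟩ := Pool.Agent.N441.TP.spec_exp X hX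
  have hZ : (NormedSpace.exp X).trace.re = ∑ b, Real.exp (x b) := by
    have e1 : (NormedSpace.exp X).trace = (Uᴴ * NormedSpace.exp X * U).trace := by
      rw [mul_assoc, Matrix.trace_mul_comm, mul_assoc, h2, mul_one]
    rw [e1, h4, Matrix.trace_diagonal, Complex.re_sum]
    rfl
  rw [hZ]
  exact Finset.sum_pos (fun b _ => Real.exp_pos _) Finset.univ_nonempty

lemma herm_smul {n : Type} [Fintype n] (X : Matrix n n ℂ) (hX : X.IsHermitian) (c : ℝ) :
    ((c : ℂ) • X).IsHermitian := by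
  unfold Matrix.IsHermitian
  rw [Matrix.conjTranspose_smul, hX.eq]
  congr 1
  simp

open Pool.Agent.TH235.PP (BoxOp TorOp term sh nJ nJ_nonneg norm_term) in
/-- the free energies of the two sizes -/
lemma free_cmp {d R' m j : ℕ} [NeZero m] [NeZero (m * j)] (hd : 0 < d) (h : BoxOp d (R' + 1))
    (hh : h.IsHermitian) (β : ℝ) (hβ : 0 ≤ β) :
    (j : ℝ) ^ 2 * Real.log (NormedSpace.exp
        (((-β : ℝ) : ℂ) • Pool.Agent.TH235.PP.ham h m)).trace.re -
      β * (4 * R' * nJ h * ((j : ℝ) ^ 2 * m)) ≤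
    Real.log (NormedSpace.exp (((-β : ℝ) : ℂ) • Pool.Agent.TH235.PP.ham h (m * j))).trace.re := by
  have hN : Nonempty (Fin d) := ⟨⟨0, hd⟩⟩
  have hX := herm_smul (Pool.Agent.TH235.PP.ham h m : TorOp d m)
    (Pool.Agent.TH235.PP.ham_herm h hh) (-β)
  have hY := herm_smul (Pool.Agent.TH235.PP.ham h (m * j) : TorOp d (m * j))
    (Pool.Agent.TH235.PP.ham_herm h hh) (-β)
  have hZ := trace_exp _ hX
  have h1 := peierls (cE d m j) _ _ hX hY (β * (4 * R' * nJ h * ((j : ℝ) ^ 2 * m))) (by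
    intro φ hφ
    have h2 := ham_cmp h φ hφ
    have h3 := (abs_le.1 h2).2
    simp only [cpy_smul, qf_smul]
    rw [← Finset.mul_sum]
    have h4 := mul_le_mul_of_nonneg_left h3 hβ
    linarith)
  have h5 := Real.log_le_log (by positivity) h1
  rw [Real.log_mul (Real.exp_pos _).ne' (pow_pos hZ _).ne', Real.log_exp, Real.log_pow,
    Fintype.card_prod, Fintype.card_fin] at h5
  have h6 : ((j * j : ℕ) : ℝ) = (j : ℝ) ^ 2 := by push_cast; ring
  rw [h6] at h5
  linarith

theorem freeDown : StmFreeDown := by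
  intro d R' hd h hh
  obtain ⟨h', hh'⟩ : ∃ h' : BConf d (R' + 1) → BConf d (R' + 1) → ℂ, h' = fun x y => h x y :=
    ⟨_, rfl⟩
  obtain ⟨c, hc⟩ : ∃ c : ℝ, c = entrySum h' + 1 := ⟨_, rfl⟩
  have hc0 : 0 ≤ entrySum h' :=
    Finset.sum_nonneg fun _ _ => Finset.sum_nonneg fun _ _ => norm_nonneg _
  have hc1 : 0 < c := by linarith
  have hJ := Pool.Agent.TH235.PP.nJ_nonneg h
  have hR : (0 : ℝ) ≤ R' := Nat.cast_nonneg R'
  refine ⟨4 * R' * Pool.Agent.TH235.PP.nJ h + 6 * (R' + 1) * c, by positivity, ?_⟩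
  intro n j _ _ hn β κ hβ hF
  obtain ⟨φ, hφ, hle⟩ := hF
  have hj : 0 < j := by
    rcases Nat.eq_zero_or_pos j with h0 | h0
    · exact absurd (by rw [h0, mul_zero]) (NeZero.ne (2 * n * j))
    · exact h0
  have hherm : Herm h' := by
    intro σ τ
    rw [hh']
    exact (hh.apply τ σ).symm
  obtain ⟨X, hX⟩ := A2.herm_param h' hherm
  have h2n : 2 * n ≤ 2 * n * j := Nat.le_mul_of_pos_right _ hj
  obtain ⟨Ψ, hΨ, hTI⟩ := Pool.Agent.Y932.PE.groundExists d (R' + 1) (2 * n * j) (by omega)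
    (by omega) X
  rw [hX] at hΨ
  have hTIe := transInv_expec Ψ hΨ.1 hTI
  obtain ⟨φ', hφ', hcmp, -⟩ := Pool.Agent.N26.TP.cmp_gen d (R' + 1) n (2 * n) (2 * n * j) rfl
    (Nat.succ_pos _) hn h2n Ψ hΨ.1 hTIe
  refine ⟨φ', hφ', ?_⟩
  rw [← hh'] at hle ⊢
  -- the energies
  have hm0 : (0 : ℝ) < ((2 * n : ℕ) : ℝ) := by
    have := NeZero.ne (2 * n)
    positivity
  have hj0 : (0 : ℝ) < (j : ℝ) := by exact_mod_cast hj
  have hE : en h' (2 * n) φ' ≤ en h' (2 * n * j) φ / (j : ℝ) ^ 2 +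
      6 * (R' + 1) * c * ((2 * n : ℕ) : ℝ) := by
    have h1 := hcmp _ (contr_inv d (R' + 1) h' c hc1 (by linarith))
    have hlin1 : enS φ' (fun σ τ => ((c⁻¹ : ℝ) : ℂ) * h' σ τ) = ((c⁻¹ : ℝ) : ℂ) * enS φ' h' := by
      unfold enS expec
      rw [Finset.mul_sum]
      refine Finset.sum_congr rfl fun u _ => ?_
      rw [Finset.mul_sum]
      refine Finset.sum_congr rfl fun s _ => ?_
      rw [Finset.mul_sum]
      refine Finset.sum_congr rfl fun τ _ => ?_
      ring
    have hlin2 : expec Ψ 0 (fun σ τ => ((c⁻¹ : ℝ) : ℂ) * h' σ τ) =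
        ((c⁻¹ : ℝ) : ℂ) * expec Ψ 0 h' := by
      unfold expec
      rw [Finset.mul_sum]
      refine Finset.sum_congr rfl fun s _ => ?_
      rw [Finset.mul_sum]
      refine Finset.sum_congr rfl fun τ _ => ?_
      ring
    rw [hlin1, hlin2] at h1
    have e3 : ((c⁻¹ : ℝ) : ℂ) * enS φ' h' - ((2 * n : ℕ) : ℂ) ^ 2 *
        (((c⁻¹ : ℝ) : ℂ) * expec Ψ 0 h') = ((c⁻¹ : ℝ) : ℂ) *
        (enS φ' h' - ((2 * n : ℕ) : ℂ) ^ 2 * expec Ψ 0 h') := by ring
    rw [e3, norm_mul, Complex.norm_real, Real.norm_eq_abs, abs_of_pos (inv_pos.2 hc1),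
      inv_mul_le_iff₀ hc1] at h1
    have h2 := (Complex.re_le_norm _).trans h1
    have e4 : ((((2 * n : ℕ) : ℂ)) ^ 2 * expec Ψ 0 h').re =
        ((2 * n : ℕ) : ℝ) ^ 2 * (expec Ψ 0 h').re := by
      rw [show (((2 * n : ℕ) : ℂ)) ^ 2 = ((((2 * n : ℕ) : ℝ) ^ 2 : ℝ) : ℂ) by push_cast; ring,
        Complex.re_ofReal_mul]
    rw [Complex.sub_re, e4, ← en_eq] at h2
    have h3 := Pool.Agent.Y331.PE.t_EnergyA.1 d (R' + 1) (2 * n * j) h' Ψ
      (fun v => hTIe _ v h')
    have h4 := hΨ.2 φ hφ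
    have e5 : ((2 * n * j : ℕ) : ℝ) = ((2 * n : ℕ) : ℝ) * (j : ℝ) := by push_cast; ring
    rw [h3, e5] at h4
    have h5 : ((2 * n : ℕ) : ℝ) ^ 2 * (expec Ψ 0 h').re ≤ en h' (2 * n * j) φ / (j : ℝ) ^ 2 := by
      rw [le_div_iff₀ (by positivity)]
      linarith [show (((2 * n : ℕ) : ℝ) * (j : ℝ)) ^ 2 * (expec Ψ 0 h').re =
        ((2 * n : ℕ) : ℝ) ^ 2 * (expec Ψ 0 h').re * (j : ℝ) ^ 2 by ring]
    have e6 : c * (12 * (((R' + 1 : ℕ)) : ℝ) * n) = 6 * (R' + 1) * c * ((2 * n : ℕ) : ℝ) := by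
      push_cast; ring
    rw [e6] at h2
    linarith
  have hZ := free_cmp (m := 2 * n) (j := j) (by omega) h hh β hβ
  have e5 : ((2 * n * j : ℕ) : ℝ) = ((2 * n : ℕ) : ℝ) * (j : ℝ) := by push_cast; ring
  rw [e5] at hle
  generalize Real.log (NormedSpace.exp
    (((-β : ℝ) : ℂ) • Pool.Agent.TH235.PP.ham h (2 * n))).trace.re = Zm at hZ ⊢
  generalize Real.log (NormedSpace.exp
    (((-β : ℝ) : ℂ) • Pool.Agent.TH235.PP.ham h (2 * n * j))).trace.re = ZM at hZ hle
  generalize en h' (2 * n * j) φ = EM at hE hle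
  generalize en h' (2 * n) φ' = Em at hE ⊢
  generalize ((2 * n : ℕ) : ℝ) = m at *
  generalize Pool.Agent.TH235.PP.nJ h = J at *
  have hj2 : (0 : ℝ) < (j : ℝ) ^ 2 := by positivity
  -- everything times `j²`
  have h1 : (j : ℝ) ^ 2 * Em ≤ EM + (j : ℝ) ^ 2 * (6 * (R' + 1) * c * m) := by
    have := mul_le_mul_of_nonneg_left hE hj2.le
    rw [mul_add, mul_div_cancel₀ _ hj2.ne'] at this
    exact this
  have h2 := mul_le_mul_of_nonneg_left h1 hβ
  have h3 : (j : ℝ) ^ 2 * (Zm + β * Em) ≤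
      (j : ℝ) ^ 2 * ((κ + (4 * R' * J + 6 * (R' + 1) * c) * β / m) * m ^ 2) := by
    have e7 : (κ + (4 * R' * J + 6 * (R' + 1) * c) * β / m) * m ^ 2 =
        κ * m ^ 2 + (4 * R' * J + 6 * (R' + 1) * c) * β * m := by
      field_simp
    rw [e7]
    nlinarith
  exact le_of_mul_le_mul_left h3 hj2

end Pool.Agent.N8.TP.FreeDown
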